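import Pool.Agent.Y787.CH.Stm

/-!
# Heights of ages of signatures with relation symbols of arity at most one
-/

set_option autoImplicit false
set_option maxHeartbeats 4000000

namespace Pool.Agent.Y329.CH.UN

open Pool.Agent.Results.MP_2feb70_lc.CountableHeights Pool.Agent.Y787.CH Function

universe u

variable {I : Type u} {ar : I → ℕ}

/-- The type of a point: the unary relations which hold at it. -/
def ty (A : FinStr I ar) (x : Fin A.1) : Set I :=
  {i | ar i = 1 ∧ (fun _ => x) ∈ A.2 i}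

/-- The true nullary relations. -/
def zr (A : FinStr I ar) : Set I := {i | ar i = 0 ∧ ∃ t, t ∈ A.2 i}

open Classical in
/-- The number of points of a given type. -/
noncomputable def cnt (A : FinStr I ar) (τ : Set I) : ℕ :=
  Fintype.card {x : Fin A.1 // ty A x = τ}

lemma ty_map {A B : FinStr I ar} {f : Fin A.1 → Fin B.1}
    (hf : ∀ (i : I) (t : Fin (ar i) → Fin A.1), t ∈ A.2 i ↔ f ∘ t ∈ B.2 i) (x : Fin A.1) :
    ty B (f x) = ty A x := by
  ext i
  simp only [ty, Set.mem_ofPred_eq]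
  rw [hf i (fun _ => x)]
  rfl

lemma cnt_le {A B : FinStr I ar} (h : Emb A B) (τ : Set I) : cnt A τ ≤ cnt B τ := by
  classical
  obtain ⟨f, hf, hf'⟩ := h
  unfold cnt
  refine Fintype.card_le_of_injective
    (fun x : {x : Fin A.1 // ty A x = τ} => (⟨f x.1, (ty_map hf' x.1).trans x.2⟩ :
      {x : Fin B.1 // ty B x = τ})) ?_
  intro x y hxy
  exact Subtype.ext (hf (congrArg Subtype.val hxy))

lemma zr_eq {A B : FinStr I ar} (h : Emb A B) : zr A = zr B := by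
  obtain ⟨f, hf, hf'⟩ := h
  ext i
  simp only [zr, Set.mem_ofPred_eq]
  constructor
  · rintro ⟨h0, t, ht⟩
    exact ⟨h0, f ∘ t, (hf' i t).1 ht⟩
  · rintro ⟨h0, t, ht⟩
    have : IsEmpty (Fin (ar i)) := by rw [h0]; infer_instance
    refine ⟨h0, isEmptyElim, (hf' i _).2 ?_⟩
    have : (f ∘ (isEmptyElim : Fin (ar i) → Fin A.1)) = t := Subsingleton.elim _ _
    rw [this]; exact ht

lemma emb_of_cnt (har : ∀ i, ar i ≤ 1) {A B : FinStr I ar} (hz : zr A = zr B)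
    (h : ∀ τ, cnt A τ ≤ cnt B τ) : Emb A B := by
  classical
  have he : ∀ τ : Set I, Nonempty ({x : Fin A.1 // ty A x = τ} ↪ {x : Fin B.1 // ty B x = τ}) :=
    fun τ => Function.Embedding.nonempty_of_card_le (h τ)
  let e : ∀ τ : Set I, ({x : Fin A.1 // ty A x = τ} ↪ {x : Fin B.1 // ty B x = τ}) :=
    fun τ => (he τ).some
  let f : Fin A.1 → Fin B.1 := fun x => (e (ty A x) ⟨x, rfl⟩).1
  have hty : ∀ x, ty B (f x) = ty A x := fun x => (e (ty A x) ⟨x, rfl⟩).2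
  have hcoh : ∀ (τ : Set I) (x : Fin A.1) (hx : ty A x = τ), f x = (e τ ⟨x, hx⟩).1 := by
    intro τ x hx
    subst hx
    rfl
  refine ⟨f, ?_, ?_⟩
  · intro x y hxy
    have h1 : ty A y = ty A x := by rw [← hty x, ← hty y, hxy]
    rw [hcoh (ty A x) x rfl, hcoh (ty A x) y h1] at hxy
    exact congrArg Subtype.val ((e (ty A x)).injective (Subtype.ext hxy))
  · intro i t
    rcases Nat.lt_or_ge (ar i) 1 with h0 | h1
    · have h0' : ar i = 0 := by omega
      have : IsEmpty (Fin (ar i)) := by rw [h0']; infer_instance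
      have hzi : i ∈ zr A ↔ i ∈ zr B := by rw [hz]
      have hA : t ∈ A.2 i ↔ i ∈ zr A := by
        constructor
        · intro ht; exact ⟨h0', t, ht⟩
        · rintro ⟨_, s, hs⟩
          have : s = t := Subsingleton.elim _ _
          rw [← this]; exact hs
      have hB : f ∘ t ∈ B.2 i ↔ i ∈ zr B := by
        constructor
        · intro ht; exact ⟨h0', f ∘ t, ht⟩
        · rintro ⟨_, s, hs⟩
          have : s = f ∘ t := Subsingleton.elim _ _
          rw [← this]; exact hs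
      rw [hA, hB, hzi]
    · have h1' : ar i = 1 := le_antisymm (har i) h1
      set x : Fin A.1 := t ⟨0, by omega⟩ with hx
      have htx : t = fun _ => x := by
        funext a
        rw [hx]
        congr 1
        apply Fin.ext
        simp only
        omega
      have hA : t ∈ A.2 i ↔ i ∈ ty A x := by
        rw [htx]
        exact ⟨fun hh => ⟨h1', hh⟩, fun hh => hh.2⟩
      have hB : f ∘ t ∈ B.2 i ↔ i ∈ ty B (f x) := by
        rw [htx]
        exact ⟨fun hh => ⟨h1', hh⟩, fun hh => hh.2⟩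
      rw [hA, hB, hty]

/-- Only finitely many types occur. -/
lemma types_finite {𝒜 : Set (FinStr I ar)} (h𝒜 : IsAge 𝒜)
    (hwf : WellFounded (Below (𝒜 := 𝒜))) : {τ | ∃ A ∈ 𝒜, ∃ x, ty A x = τ}.Finite := by
  classical
  have h1 := finite_size h𝒜 hwf 1
  refine (h1.image (fun S : FinStr I ar => if h : 0 < S.1 then ty S ⟨0, h⟩ else ∅)).subset ?_
  rintro τ ⟨A, hA, x, rfl⟩
  refine ⟨pull A.2 (fun _ : Fin 1 => x), ⟨?_, rfl⟩, ?_⟩
  · refine h𝒜.hereditary _ _ hA ⟨fun _ => x, ?_, fun i t => Iff.rfl⟩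
    intro a b _
    exact Subsingleton.elim (α := Fin 1) a b
  · have h0 : 0 < (pull A.2 (fun _ : Fin 1 => x)).1 := Nat.one_pos
    simp only [h0, dite_true]
    ext i
    simp only [ty, pull, Set.mem_ofPred_eq]
    exact Iff.rfl

/-- Directedness for finitely many members. -/
lemma directed_finset {ℬ : Set (FinStr I ar)} (hℬ : IsAge ℬ) (T : Finset (Set I))
    (g : Set I → FinStr I ar) (hg : ∀ τ ∈ T, g τ ∈ ℬ) :
    ∃ D ∈ ℬ, ∀ τ ∈ T, Emb (g τ) D := by
  classical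
  induction T using Finset.induction_on with
  | empty =>
    obtain ⟨D, hD⟩ := hℬ.nonempty
    exact ⟨D, hD, fun τ hτ => absurd hτ (Finset.notMem_empty _)⟩
  | insert σ T hσ ih =>
    obtain ⟨D, hD, hD'⟩ := ih (fun τ hτ => hg τ (Finset.mem_insert_of_mem hτ))
    obtain ⟨C, hC, h1, h2⟩ := hℬ.directed D hD (g σ) (hg σ (Finset.mem_insert_self _ _))
    refine ⟨C, hC, fun τ hτ => ?_⟩
    rcases Finset.mem_insert.1 hτ with rfl | hτ
    · exact h2
    · exact (hD' τ hτ).trans h1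

/-- The values of `cnt` on a class. -/
def vals (ℬ : Set (FinStr I ar)) (τ : Set I) : Set ℕ := {n | ∃ A ∈ ℬ, cnt A τ = n}

open Classical in
/-- The unbounded types. -/
noncomputable def infT (T : Finset (Set I)) (ℬ : Set (FinStr I ar)) : Finset (Set I) :=
  T.filter (fun τ => ¬ BddAbove (vals ℬ τ))

/-- The sum of the largest values of the bounded types. -/
noncomputable def mx (T : Finset (Set I)) (ℬ : Set (FinStr I ar)) : ℕ :=
  ∑ τ ∈ T, sSup (vals ℬ τ)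

lemma vals_mono {ℬ 𝒞 : Set (FinStr I ar)} (h : ℬ ⊆ 𝒞) (τ : Set I) : vals ℬ τ ⊆ vals 𝒞 τ := by
  rintro n ⟨A, hA, rfl⟩
  exact ⟨A, h hA, rfl⟩

lemma vals_nonempty {ℬ : Set (FinStr I ar)} (h : IsAge ℬ) (τ : Set I) : (vals ℬ τ).Nonempty := by
  obtain ⟨A, hA⟩ := h.nonempty
  exact ⟨_, A, hA, rfl⟩

lemma sSup_unb {s : Set ℕ} (h : ¬ BddAbove s) : sSup s = 0 := by
  rw [Nat.sSup_of_not_bddAbove h]

/-- The key step: the two invariants determine the age. -/
lemma subset_of_eq (har : ∀ i, ar i ≤ 1) {𝒜 ℬ 𝒞 : Set (FinStr I ar)} (h𝒜 : IsAge 𝒜)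
    (hℬ : IsAge ℬ) (h𝒞 : IsAge 𝒞) (hB : ℬ ⊆ 𝒜) (hC : 𝒞 ⊆ 𝒜)
    (T : Finset (Set I)) (hT : ∀ A ∈ 𝒜, ∀ x, ty A x ∈ T)
    (hinf : ∀ τ ∈ T, BddAbove (vals ℬ τ) → BddAbove (vals 𝒞 τ))
    (hmx : ∀ τ ∈ T, sSup (vals ℬ τ) = sSup (vals 𝒞 τ)) : 𝒞 ⊆ ℬ := by
  classical
  intro A hA
  have h1 : ∀ τ ∈ T, ∃ D ∈ ℬ, cnt A τ ≤ cnt D τ := by
    intro τ hτ
    by_cases hb : BddAbove (vals ℬ τ)
    · obtain ⟨D, hD, hD'⟩ := Nat.sSup_mem (vals_nonempty hℬ τ) hb
      refine ⟨D, hD, ?_⟩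
      rw [hD', hmx τ hτ]
      exact le_csSup (hinf τ hτ hb) ⟨A, hA, rfl⟩
    · have : ¬ (cnt A τ) ∈ upperBounds (vals ℬ τ) := fun hh => hb ⟨_, hh⟩
      simp only [upperBounds, Set.mem_ofPred_eq, not_forall] at this
      obtain ⟨n, ⟨D, hD, rfl⟩, hn⟩ := this
      exact ⟨D, hD, by omega⟩
  choose! g hg hg' using h1
  obtain ⟨D, hD, hD'⟩ := directed_finset hℬ T g hg
  refine hℬ.hereditary A D hD (emb_of_cnt har ?_ ?_)
  · obtain ⟨E, hE⟩ := h𝒜.exists_empty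
    rw [← zr_eq (hE A (hC hA)), ← zr_eq (hE D (hB hD))]
  · intro τ
    by_cases hτ : τ ∈ T
    · exact (hg' τ hτ).trans (cnt_le (hD' τ hτ) τ)
    · have : cnt A τ = 0 := by
        unfold cnt
        rw [Fintype.card_eq_zero_iff]
        exact ⟨fun x => hτ (x.2 ▸ hT A (hC hA) x.1)⟩
      omega

/-- The bound for the rank. -/
noncomputable def bnd (T : Finset (Set I)) (ℬ : Set (FinStr I ar)) : Ordinal.{u} :=
  Ordinal.omega0 * ((infT T ℬ).card : Ordinal.{u}) + (mx T ℬ : Ordinal.{u})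

lemma lt_step (k m : ℕ) : Ordinal.omega0.{u} * (k : Ordinal.{u}) + (m : Ordinal.{u}) <
    Ordinal.omega0 * ((k + 1 : ℕ) : Ordinal.{u}) := by
  rw [Nat.cast_add, Nat.cast_one, mul_add, mul_one]
  exact (add_lt_add_iff_left _).2 (Ordinal.natCast_lt_omega0 m)

lemma bnd_lt (har : ∀ i, ar i ≤ 1) {𝒜 ℬ 𝒞 : Set (FinStr I ar)} (h𝒜 : IsAge 𝒜)
    (hℬ : IsAge ℬ) (h𝒞 : IsAge 𝒞) (hB : ℬ ⊆ 𝒜) (hC : 𝒞 ⊆ 𝒜) (hBC : ℬ ⊂ 𝒞)
    (T : Finset (Set I)) (hT : ∀ A ∈ 𝒜, ∀ x, ty A x ∈ T) : bnd T ℬ < bnd T 𝒞 := by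
  classical
  have hsub : infT T ℬ ⊆ infT T 𝒞 := by
    intro τ hτ
    rw [infT, Finset.mem_filter] at hτ ⊢
    exact ⟨hτ.1, fun hb => hτ.2 (hb.mono (vals_mono hBC.1 τ))⟩
  rcases (Finset.card_le_card hsub).lt_or_eq with hlt | heq
  · unfold bnd
    refine (lt_step _ _).trans_le (le_trans ?_ le_self_add)
    exact mul_le_mul_right (Nat.cast_le.2 hlt) _
  · have hinfeq : infT T ℬ = infT T 𝒞 := Finset.eq_of_subset_of_card_le hsub heq.ge
    have hinf : ∀ τ ∈ T, BddAbove (vals ℬ τ) → BddAbove (vals 𝒞 τ) := by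
      intro τ hτ hb
      by_contra hcon
      have : τ ∈ infT T 𝒞 := Finset.mem_filter.2 ⟨hτ, hcon⟩
      rw [← hinfeq] at this
      exact (Finset.mem_filter.1 this).2 hb
    have hle : ∀ τ ∈ T, sSup (vals ℬ τ) ≤ sSup (vals 𝒞 τ) := by
      intro τ hτ
      by_cases hb : BddAbove (vals ℬ τ)
      · exact csSup_le_csSup (hinf τ hτ hb) (vals_nonempty hℬ τ) (vals_mono hBC.1 τ)
      · rw [sSup_unb hb]; exact Nat.zero_le _
    have hlt : mx T ℬ < mx T 𝒞 := by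
      refine lt_of_le_of_ne (Finset.sum_le_sum hle) ?_
      intro he
      have h2 := (Finset.sum_eq_sum_iff_of_le hle).1 he
      exact hBC.2 (subset_of_eq har h𝒜 hℬ h𝒞 hB hC T hT hinf h2)
    unfold bnd
    rw [hinfeq]
    exact (add_lt_add_iff_left _).2 (Nat.cast_lt.2 hlt)

theorem un : t_UN.{u} := by
  intro I ar har 𝒜 h𝒜 hwf
  classical
  have hfin := types_finite h𝒜 hwf.wf
  set T : Finset (Set I) := hfin.toFinset with hTdef
  have hT : ∀ A ∈ 𝒜, ∀ x, ty A x ∈ T := fun A hA x => hfin.mem_toFinset.2 ⟨A, hA, x, rfl⟩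
  have hrank : ∀ ℬ : SubAge 𝒜, IsWellFounded.rank Below ℬ ≤ bnd T ℬ.1 := by
    intro ℬ
    induction ℬ using IsWellFounded.induction (Below (𝒜 := 𝒜)) with
    | _ ℬ ih =>
      rw [IsWellFounded.rank_eq]
      refine Ordinal.iSup_le fun b => ?_
      exact Order.succ_le_of_lt ((ih b.1 b.2).trans_lt
        (bnd_lt har h𝒜 b.1.2.1 ℬ.2.1 b.1.2.2 ℬ.2.2 b.2 T hT))
  refine (hrank _).trans_lt ?_
  refine (lt_step _ _).trans_le ?_
  exact mul_le_mul_right (Ordinal.natCast_lt_omega0 _).le _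

end Pool.Agent.Y329.CH.UN
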